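import Pool.Agent.Y283.NK.L2

/-!
# Project NK: good couplings give hyperinvariant subspaces, continued
-/

set_option autoImplicit false

namespace Pool.Agent.Y283.NK

open MeasureTheory Set Metric Filter Topology
open scoped InnerProductSpace ENNReal NNReal ComplexConjugate

/-- reflection of the integrals of the determinants -/
lemma reflect (hADJ : S_ADJ) {S : Type} [MeasurableSpace S] {μ : Measure S} [SigmaFinite μ]
    {φ : S → ℂ} {N : Lp ℂ 2 μ →L[ℂ] Lp ℂ 2 μ} (hN : IsMul φ N) (u v : ℕ → Lp ℂ 2 μ) (n : ℕ)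
    (t : ℂ) (R : ℝ) :
    ∫⁻ z in ball (0:ℂ) R, lm ‖(MM (fun s => conj (φ s)) v u n (conj t) z).det‖ =
      ∫⁻ z in ball (0:ℂ) R, lm ‖(MM φ u v n t z).det‖ := by
  have hmp : MeasurePreserving (Complex.conjLIE : ℂ → ℂ) volume volume :=
    Complex.conjLIE.measurePreserving
  have hemb : MeasurableEmbedding (Complex.conjLIE : ℂ → ℂ) :=
    Complex.conjLIE.toHomeomorph.measurableEmbedding
  have h1 := hmp.setLIntegral_comp_preimage_emb hemb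
    (fun z => lm ‖(MM (fun s => conj (φ s)) v u n (conj t) z).det‖) (ball (0:ℂ) R)
  have h2 : (Complex.conjLIE : ℂ → ℂ) ⁻¹' (ball (0:ℂ) R) = ball (0:ℂ) R := by
    ext z
    simp
  rw [h2] at h1
  rw [← h1]
  refine lintegral_congr fun z => ?_
  have h3 := (hADJ S μ φ N hN).2 u v n t z
  show lm ‖(MM (fun s => conj (φ s)) v u n (conj t) (conj z)).det‖ = _
  rw [h3, RCLike.norm_conj]

theorem l2 (hCORE : S_CORE) (hGRAM : S_GRAM) (hMEAS : S_MEAS) (hRAD : S_RAD) (hCSEL : S_CSEL)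
    (hOUTQ : S_OUTQ) (hLIM : S_LIM) (hTRC : S_TRC) (hADJ : S_ADJ) (hANN : S_ANN)
    {S : Type} [MeasurableSpace S] {μ : Measure S} [SigmaFinite μ] {φ : S → ℂ}
    {N : Lp ℂ 2 μ →L[ℂ] Lp ℂ 2 μ} (hN : IsMul φ N) {K : Lp ℂ 2 μ →L[ℂ] Lp ℂ 2 μ}
    {u v : ℕ → Lp ℂ 2 μ} (hK : Repr K u v) (t : ℂ) (R : ℝ) (hR : ‖N + t • K‖ + 1 < R)
    (I : Set ℕ) (B : ℝ≥0) (hI : I.Infinite)
    (hB : ∀ n ∈ I, ∫⁻ z in ball (0:ℂ) R, lm ‖(MM φ u v n t z).det‖ ≤ B) :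
    (∃ c : ℂ, N + t • K = c • 1) ∨ HasHyp (N + t • K) := by
  by_cases hsc : ∃ c : ℂ, N + t • K = c • 1
  · exact Or.inl hsc
  right
  push Not at hsc
  set T : Lp ℂ 2 μ →L[ℂ] Lp ℂ 2 μ := N + t • K with hT
  by_cases e1 : ∃ (z : ℂ) (f : Lp ℂ 2 μ), T f = z • f ∧ f ≠ 0
  · obtain ⟨z, f, h1, h2⟩ := e1
    exact hyp_of_eigen h2 h1 hsc
  by_cases e2 : ∃ (z : ℂ) (f : Lp ℂ 2 μ), ContinuousLinearMap.adjoint T f = z • f ∧ f ≠ 0
  · obtain ⟨z, f, h1, h2⟩ := e2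
    exact hyp_of_adj_eigen h2 h1 hsc
  push Not at e1 e2
  have hnt : Nontrivial (Lp ℂ 2 μ) := by
    by_contra h
    rw [not_nontrivial_iff_subsingleton] at h
    apply hsc 0
    ext1 f
    exact Subsingleton.elim _ _
  obtain ⟨hN', -⟩ := hADJ S μ φ N hN
  have hstarN : IsStarNormal N := by
    constructor
    show ContinuousLinearMap.adjoint N * N = N * ContinuousLinearMap.adjoint N
    ext1 f
    apply Lp.ext
    have a1 := hN'.eq (N f)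
    have a2 := hN.eq f
    have a3 := hN.eq (ContinuousLinearMap.adjoint N f)
    have a4 := hN'.eq f
    show (⇑(ContinuousLinearMap.adjoint N (N f)) : S → ℂ) =ᵐ[μ]
      ⇑(N (ContinuousLinearMap.adjoint N f))
    filter_upwards [a1, a2, a3, a4] with s b1 b2 b3 b4
    rw [b1, b2, b3, b4]
    ring
  have hKc : IsCompactOperator K := (hTRC _ K u v hK).2.1
  obtain ⟨c₁, hc₁⟩ := spectrum.nonempty T
  by_cases hone : spectrum ℂ T = {c₁}
  · -- one point spectrum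
    have h1 : IsCompactOperator (t • K) := hKc.smul t
    have h2 := Pool.Agent.W806.HI.main (Lp ℂ 2 μ) N (t • K) c₁ hstarN h1 hone
    have h3 : IsCompactOperator (T - c₁ • (1 : Lp ℂ 2 μ →L[ℂ] Lp ℂ 2 μ)) := by
      have h4 : T - c₁ • (1 : Lp ℂ 2 μ →L[ℂ] Lp ℂ 2 μ) =
          (N - c₁ • (1 : Lp ℂ 2 μ →L[ℂ] Lp ℂ 2 μ)) + t • K := by rw [hT]; abel
      rw [h4]
      exact h2.add h1
    refine hyp_shift c₁ (Pool.Agent.W577.HI.G1.main _ _ h3 ?_)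
    rintro ⟨c, hc⟩
    apply hsc (c + c₁)
    rw [add_smul, ← hc]
    abel
  -- two points
  obtain ⟨c₂, hc₂, hne⟩ : ∃ c₂ ∈ spectrum ℂ T, c₂ ≠ c₁ := by
    by_contra hcon
    push Not at hcon
    apply hone
    ext z
    exact ⟨fun hz => hcon z hz, fun hz => by rw [mem_singleton_iff.1 hz]; exact hc₁⟩
  have hdist : 0 < ‖c₁ - c₂‖ := norm_pos_iff.2 (sub_ne_zero.2 (Ne.symm hne))
  set ρ : ℝ := min (‖c₁ - c₂‖ / 4) 1 with hρdef
  have hρ : 0 < ρ := lt_min (by positivity) one_pos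
  have hρ1 : ρ ≤ 1 := min_le_right _ _
  have hρ2 : ρ ≤ ‖c₁ - c₂‖ / 4 := min_le_left _ _
  have hballs : ∀ c : ℂ, ‖c‖ ≤ ‖T‖ → closedBall c ρ ⊆ ball (0:ℂ) R := by
    intro c hc z hz
    rw [mem_closedBall, dist_eq_norm] at hz
    rw [mem_ball_zero_iff]
    calc ‖z‖ = ‖(z - c) + c‖ := by rw [sub_add_cancel]
      _ ≤ ‖z - c‖ + ‖c‖ := norm_add_le _ _
      _ < R := by linarith
  obtain ⟨x, hx⟩ := not_surj e1 hc₁
  obtain ⟨r₁, C₁, X, hr₁, hr₁', X1, X2, X3⟩ := loc hCORE hGRAM hMEAS hRAD hCSEL hOUTQ hLIM hTRC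
    hN hK t c₁ ρ R hρ (hballs c₁ (spectrum.norm_le_norm_of_mem hc₁)) I B hI hB x hx
  -- the adjoint
  have hTadj : ContinuousLinearMap.adjoint T =
      ContinuousLinearMap.adjoint N + (conj t) • ContinuousLinearMap.adjoint K := by
    rw [hT, map_add]
    congr 1
    ext1 f
    refine ext_inner_right ℂ fun y => ?_
    rw [ContinuousLinearMap.adjoint_inner_left]
    show ⟪f, t • K y⟫_ℂ = ⟪(conj t) • ContinuousLinearMap.adjoint K f, y⟫_ℂ
    rw [inner_smul_right, inner_smul_left, ContinuousLinearMap.adjoint_inner_left,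
      Complex.conj_conj]
  have hc₂' : (conj c₂) ∈ spectrum ℂ (ContinuousLinearMap.adjoint T) := by
    have h1 : ContinuousLinearMap.adjoint T = star T := rfl
    rw [h1, spectrum.map_star]
    simpa using hc₂
  obtain ⟨y, hy⟩ := not_surj e2 hc₂'
  have hB' : ∀ n ∈ I, ∫⁻ z in ball (0:ℂ) R,
      lm ‖(MM (fun s => conj (φ s)) v u n (conj t) z).det‖ ≤ B := by
    intro n hn
    rw [reflect hADJ hN]
    exact hB n hn
  have hnc₂ : ‖conj c₂‖ ≤ ‖T‖ := by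
    rw [RCLike.norm_conj]
    exact spectrum.norm_le_norm_of_mem hc₂
  rw [hTadj] at hy
  obtain ⟨r₂, C₂, Y, hr₂, hr₂', Y1, Y2, Y3⟩ := loc hCORE hGRAM hMEAS hRAD hCSEL hOUTQ hLIM hTRC
    hN' (hTRC _ K u v hK).1 (conj t) (conj c₂) ρ R hρ (hballs _ hnc₂) I B hI hB' y hy
  refine hANN (Lp ℂ 2 μ) T c₁ c₂ r₁ r₂ C₁ C₂ X Y hr₁.le hr₂.le ?_ X1 X2 ?_ Y2 X3 Y3
  · linarith
  · intro a
    rw [hTadj]
    exact Y1 a

end Pool.Agent.Y283.NK
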