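import Pool.Agent.Y283.NK.Loc

/-!
# Project NK: almost every coupling is good
-/

set_option autoImplicit false

namespace Pool.Agent.Y283.NK

open MeasureTheory Set Metric Filter Topology
open scoped InnerProductSpace ENNReal NNReal ComplexConjugate

theorem gen (hGRAM : S_GRAM) (hMEAS : S_MEAS) (hPOT : S_POT) (hEAI : S_EAI) (hSEL : S_SEL)
    {S : Type} [MeasurableSpace S] {μ : Measure S} [SigmaFinite μ] {φ : S → ℂ}
    (hφ : Measurable φ) {u v : ℕ → Lp ℂ 2 μ} (hu : Summable (fun j => ‖u j‖ ^ 2))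
    (hv : Summable (fun j => ‖v j‖ ^ 2)) (m : Measure ℂ) [SFinite m] (hm : LogBd m) (R R' : ℝ) :
    ∀ᵐ t ∂(m.restrict (ball (0:ℂ) R)), ∃ (I : Set ℕ) (B : ℝ≥0), I.Infinite ∧
      ∀ n ∈ I, ∫⁻ z in ball (0:ℂ) R', lm ‖(MM φ u v n t z).det‖ ≤ B := by
  obtain ⟨me, mc, md, ml⟩ := hMEAS S μ φ hφ
  obtain ⟨C, hC⟩ := hPOT m hm R
  have key : ∀ (n : ℕ) (z : ℂ), ∫⁻ t in ball (0:ℂ) R, lm ‖(MM φ u v n t z).det‖ ∂m ≤
      (C + 1) * ((∑' j, ea φ (u j) z) + ∑' j, ea φ (v j) z) := by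
    intro n z
    by_cases hQ : (∑' j, ea φ (u j) z) + ∑' j, ea φ (v j) z = ⊤
    · rw [hQ, ENNReal.mul_top (by simp)]
      exact le_top
    obtain ⟨h1, h2⟩ := ENNReal.add_ne_top.1 hQ
    obtain ⟨⟨mk, hdet, hsum⟩, -⟩ := hGRAM S μ φ hφ u v n (u 0) z
      (∑' j, ea φ (u j) z).toReal (∑' j, ea φ (v j) z).toReal
      (∑' j, ea φ (u j) z).toReal ENNReal.toReal_nonneg ENNReal.toReal_nonneg
      ENNReal.toReal_nonneg (by rw [ENNReal.ofReal_toReal h1]) (by rw [ENNReal.ofReal_toReal h2])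
      (by rw [ENNReal.ofReal_toReal h1]; exact ENNReal.le_tsum 0)
    set α := (∑' j, ea φ (u j) z).toReal with hα
    set β := (∑' j, ea φ (v j) z).toReal with hβ
    have hα0 : 0 ≤ α := ENNReal.toReal_nonneg
    have hβ0 : 0 ≤ β := ENNReal.toReal_nonneg
    have h3 : Real.sqrt α * Real.sqrt β ≤ α + β := by
      nlinarith [Real.sq_sqrt hα0, Real.sq_sqrt hβ0, sq_nonneg (Real.sqrt α - Real.sqrt β)]
    calc ∫⁻ t in ball (0:ℂ) R, lm ‖(MM φ u v n t z).det‖ ∂m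
        = ∫⁻ t in ball (0:ℂ) R, lm ‖∏ k, (1 - t * mk k)‖ ∂m := by
          refine lintegral_congr fun t => ?_
          rw [hdet t]
      _ ≤ C * ENNReal.ofReal (∑ k, ‖mk k‖) := hC n mk
      _ ≤ C * ENNReal.ofReal (α + β) := by
          gcongr
          exact hsum.trans h3
      _ = C * ((∑' j, ea φ (u j) z) + ∑' j, ea φ (v j) z) := by
          rw [ENNReal.ofReal_add hα0 hβ0, ENNReal.ofReal_toReal h1, ENNReal.ofReal_toReal h2]
      _ ≤ _ := by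
          gcongr
          exact le_self_add
  have hfin : (C + 1) * ((∫⁻ z in ball (0:ℂ) R', ∑' j, ea φ (u j) z) +
      ∫⁻ z in ball (0:ℂ) R', ∑' j, ea φ (v j) z) ≠ ⊤ := by
    refine ENNReal.mul_ne_top (by simp) (ENNReal.add_ne_top.2 ⟨?_, ?_⟩)
    · exact hEAI S μ φ hφ u hu R'
    · exact hEAI S μ φ hφ v hv R'
  obtain ⟨C', hC'⟩ : ∃ C' : ℝ≥0, (C' : ℝ≥0∞) = _ := ⟨_, ENNReal.coe_toNNReal hfin⟩
  refine hSEL m R R' (fun n z t => lm ‖(MM φ u v n t z).det‖) C' (fun n => ?_) (fun n => ?_)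
  · exact ml.comp (md u v n).norm
  · rw [hC']
    calc ∫⁻ z in ball (0:ℂ) R', ∫⁻ t in ball (0:ℂ) R, lm ‖(MM φ u v n t z).det‖ ∂m
        ≤ ∫⁻ z in ball (0:ℂ) R', (C + 1) * ((∑' j, ea φ (u j) z) + ∑' j, ea φ (v j) z) :=
          lintegral_mono fun z => key n z
      _ = _ := by
          rw [lintegral_const_mul, lintegral_add_left]
          · exact Measurable.tsum fun j => me (u j)
          · exact (Measurable.tsum fun j => me (u j)).add (Measurable.tsum fun j => me (v j))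

end Pool.Agent.Y283.NK
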