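import Pool.Agent.Y283.NK.L2b
import Pool.Agent.Y283.NK.Gen

/-!
# Project NK: the theorem on abstract separable Hilbert spaces
-/

set_option autoImplicit false

namespace Pool.Agent.Y283.NK

open MeasureTheory Set Metric Filter Topology
open scoped InnerProductSpace ENNReal NNReal ComplexConjugate

/-- every point of the spectrum carries nonzero vectors with small local spectrum -/
def LocVec {H : Type} [NormedAddCommGroup H] [NormedSpace ℂ H] (T : H →L[ℂ] H) : Prop :=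
  ∀ c ∈ spectrum ℂ T, ∀ ε : ℝ, 0 < ε → ∃ (x : H) (C : ℝ), x ≠ 0 ∧
    ∀ n : ℕ, ‖((T - c • (1 : H →L[ℂ] H)) ^ n) x‖ ≤ C * ε ^ n

lemma pow_of_rec {H : Type} [NormedAddCommGroup H] [NormedSpace ℂ H] {T : H →L[ℂ] H} {c : ℂ}
    {X : ℕ → H} (h : ∀ a, T (X a) - c • X a = X (a + 1)) (n : ℕ) :
    ((T - c • (1 : H →L[ℂ] H)) ^ n) (X 0) = X n := by
  induction n with
  | zero => simp
  | succ n ih =>
    rw [pow_succ', ContinuousLinearMap.mul_apply, ih]
    exact h n

/-- the local part: small local spectra at every point of the spectrum -/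
lemma locvec (hCORE : S_CORE) (hGRAM : S_GRAM) (hMEAS : S_MEAS) (hRAD : S_RAD) (hCSEL : S_CSEL)
    (hOUTQ : S_OUTQ) (hLIM : S_LIM) (hTRC : S_TRC)
    {S : Type} [MeasurableSpace S] {μ : Measure S} [SigmaFinite μ] {φ : S → ℂ}
    {N : Lp ℂ 2 μ →L[ℂ] Lp ℂ 2 μ} (hN : IsMul φ N) {K : Lp ℂ 2 μ →L[ℂ] Lp ℂ 2 μ}
    {u v : ℕ → Lp ℂ 2 μ} (hK : Repr K u v) (t : ℂ) (R : ℝ) (hR : ‖N + t • K‖ + 1 < R)
    (I : Set ℕ) (B : ℝ≥0) (hI : I.Infinite)
    (hB : ∀ n ∈ I, ∫⁻ z in ball (0:ℂ) R, lm ‖(MM φ u v n t z).det‖ ≤ B) :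
    LocVec (N + t • K) := by
  intro c hc ε hε
  set T : Lp ℂ 2 μ →L[ℂ] Lp ℂ 2 μ := N + t • K with hT
  have hnt : Nontrivial (Lp ℂ 2 μ) := by
    by_contra h
    rw [not_nontrivial_iff_subsingleton] at h
    have : IsUnit (algebraMap ℂ (Lp ℂ 2 μ →L[ℂ] Lp ℂ 2 μ) c - T) := by
      refine isUnit_iff_exists_inv.2 ⟨0, ?_⟩
      ext1 f
      exact Subsingleton.elim _ _
    exact hc this
  by_cases hinj : ∃ f : Lp ℂ 2 μ, T f = c • f ∧ f ≠ 0
  · obtain ⟨f, h1, h2⟩ := hinj
    refine ⟨f, ‖f‖, h2, fun n => ?_⟩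
    have h3 : (T - c • (1 : Lp ℂ 2 μ →L[ℂ] Lp ℂ 2 μ)) f = 0 := by
      show T f - c • f = 0
      rw [h1, sub_self]
    cases n with
    | zero => simp
    | succ n =>
      rw [pow_succ, ContinuousLinearMap.mul_apply, h3, map_zero, norm_zero]
      positivity
  push Not at hinj
  have hx : ∃ x, ∀ y, c • y - T y ≠ x := by
    by_contra hcon
    push Not at hcon
    apply hc
    rw [spectrum.mem_resolventSet_iff, ContinuousLinearMap.isUnit_iff_bijective]
    have hval : ∀ y, (algebraMap ℂ (Lp ℂ 2 μ →L[ℂ] Lp ℂ 2 μ) c - T) y = c • y - T y := by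
      intro y
      rw [Algebra.algebraMap_eq_smul_one]
      rfl
    constructor
    · rw [injective_iff_map_eq_zero]
      intro y hy
      rw [hval, sub_eq_zero] at hy
      exact hinj y hy.symm
    · intro x
      obtain ⟨y, hy⟩ := hcon x
      exact ⟨y, (hval y).trans hy⟩
  obtain ⟨x, hx⟩ := hx
  set ρ : ℝ := min ε 1 with hρdef
  have hρ : 0 < ρ := lt_min hε one_pos
  have hρ1 : ρ ≤ 1 := min_le_right _ _
  have hball : closedBall c ρ ⊆ ball (0:ℂ) R := by
    intro z hz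
    rw [mem_closedBall, dist_eq_norm] at hz
    rw [mem_ball_zero_iff]
    have h1 : ‖c‖ ≤ ‖T‖ := spectrum.norm_le_norm_of_mem hc
    calc ‖z‖ = ‖(z - c) + c‖ := by rw [sub_add_cancel]
      _ ≤ ‖z - c‖ + ‖c‖ := norm_add_le _ _
      _ < R := by linarith
  obtain ⟨r, C, X, hr, hr', X1, X2, X3⟩ := loc hCORE hGRAM hMEAS hRAD hCSEL hOUTQ hLIM hTRC
    hN hK t c ρ R hρ hball I B hI hB x hx
  refine ⟨X 0, C, X3, fun n => ?_⟩
  rw [pow_of_rec X1 n]
  have hC : 0 ≤ C := by
    have h1 := X2 0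
    rw [pow_zero, mul_one] at h1
    exact (norm_nonneg _).trans h1
  refine (X2 n).trans ?_
  have h2 : r ≤ ε := hr'.trans (min_le_left _ _)
  gcongr

section transport

variable {H H' : Type} [NormedAddCommGroup H] [InnerProductSpace ℂ H] [CompleteSpace H]
  [NormedAddCommGroup H'] [InnerProductSpace ℂ H'] [CompleteSpace H']

/-- conjugation by a unitary operator -/
noncomputable def cj (W : H' ≃ₗᵢ[ℂ] H) (T : H →L[ℂ] H) : H' →L[ℂ] H' :=
  (W.symm : H →L[ℂ] H').comp (T.comp (W : H' →L[ℂ] H))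

omit [CompleteSpace H] [CompleteSpace H'] in
lemma cj_apply (W : H' ≃ₗᵢ[ℂ] H) (T : H →L[ℂ] H) (f : H') : cj W T f = W.symm (T (W f)) := rfl

omit [CompleteSpace H] [CompleteSpace H'] in
lemma W_cj (W : H' ≃ₗᵢ[ℂ] H) (T : H →L[ℂ] H) (f : H') : W (cj W T f) = T (W f) := by
  rw [cj_apply, LinearIsometryEquiv.apply_symm_apply]

omit [CompleteSpace H] [CompleteSpace H'] in
lemma cj_add_smul (W : H' ≃ₗᵢ[ℂ] H) (N K : H →L[ℂ] H) (t : ℂ) :
    cj W (N + t • K) = cj W N + t • cj W K := by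
  ext f
  show W.symm (N (W f) + t • K (W f)) = W.symm (N (W f)) + t • W.symm (K (W f))
  rw [map_add, map_smul]

omit [CompleteSpace H] [CompleteSpace H'] in
lemma scalar_of_cj (W : H' ≃ₗᵢ[ℂ] H) {T : H →L[ℂ] H} {c : ℂ} (h : cj W T = c • 1) :
    T = c • 1 := by
  ext f
  have h1 := congrArg (fun L : H' →L[ℂ] H' => L (W.symm f)) h
  have h2 : W.symm (T (W (W.symm f))) = c • W.symm f := h1
  rw [LinearIsometryEquiv.apply_symm_apply, ← map_smul] at h2
  exact W.symm.injective h2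

omit [CompleteSpace H] [CompleteSpace H'] in
lemma hyp_of_cj (W : H' ≃ₗᵢ[ℂ] H) {T : H →L[ℂ] H} (h : HasHyp (cj W T)) : HasHyp T := by
  obtain ⟨V, h1, h2, h3, h4⟩ := h
  refine ⟨V.comap (W.symm.toLinearEquiv : H →ₗ[ℂ] H'), ?_, ?_, ?_, ?_⟩
  · exact h1.preimage W.symm.continuous
  · intro h
    apply h2
    rw [eq_bot_iff]
    intro y hy
    have h5 : W y ∈ V.comap (W.symm.toLinearEquiv : H →ₗ[ℂ] H') := by
      rw [Submodule.mem_comap]
      show W.symm (W y) ∈ V
      rw [LinearIsometryEquiv.symm_apply_apply]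
      exact hy
    rw [h, Submodule.mem_bot] at h5
    rw [Submodule.mem_bot]
    exact (map_eq_zero_iff W W.injective).1 h5
  · intro h
    apply h3
    rw [eq_top_iff]
    intro y _
    have h5 : W y ∈ V.comap (W.symm.toLinearEquiv : H →ₗ[ℂ] H') := by rw [h]; trivial
    rw [Submodule.mem_comap] at h5
    have h6 : W.symm (W y) ∈ V := h5
    rwa [LinearIsometryEquiv.symm_apply_apply] at h6
  · intro Q hQ x hx
    rw [Submodule.mem_comap] at hx ⊢
    have hx' : W.symm x ∈ V := hx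
    have h5 : cj W Q * cj W T = cj W T * cj W Q := by
      ext f
      show W.symm (Q (W (W.symm (T (W f))))) = W.symm (T (W (W.symm (Q (W f)))))
      rw [LinearIsometryEquiv.apply_symm_apply, LinearIsometryEquiv.apply_symm_apply]
      exact congrArg W.symm (congrArg (fun L : H →L[ℂ] H => L (W f)) hQ)
    have h6 := h4 _ h5 _ hx'
    rw [cj_apply, LinearIsometryEquiv.apply_symm_apply] at h6
    exact h6

omit [CompleteSpace H] [CompleteSpace H'] in
lemma locvec_of_cj (W : H' ≃ₗᵢ[ℂ] H) {T : H →L[ℂ] H} (h : LocVec (cj W T)) : LocVec T := by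
  intro c hc ε hε
  have hc' : c ∈ spectrum ℂ (cj W T) := by
    intro h1
    apply hc
    have h2 : IsUnit (algebraMap ℂ (H' →L[ℂ] H') c - cj W T) := h1
    obtain ⟨g, h3, h4⟩ := isUnit_iff_exists.1 h2
    show IsUnit (algebraMap ℂ (H →L[ℂ] H) c - T)
    refine isUnit_iff_exists.2 ⟨cj W.symm g, ?_, ?_⟩
    · ext f
      have h5 := congrArg (fun L : H' →L[ℂ] H' => W (L (W.symm f))) h3
      rw [Algebra.algebraMap_eq_smul_one] at h5 ⊢
      have h6 : W (c • g (W.symm f) - W.symm (T (W (g (W.symm f))))) = W (W.symm f) := h5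
      rw [map_sub, LinearIsometryEquiv.apply_symm_apply, map_smul,
        LinearIsometryEquiv.apply_symm_apply] at h6
      exact h6
    · ext f
      have h5 := congrArg (fun L : H' →L[ℂ] H' => W (L (W.symm f))) h4
      rw [Algebra.algebraMap_eq_smul_one] at h5 ⊢
      have h6 : W (g (c • W.symm f - W.symm (T (W (W.symm f))))) = W (W.symm f) := h5
      rw [LinearIsometryEquiv.apply_symm_apply, ← map_smul, ← map_sub] at h6
      exact h6
  obtain ⟨x, C, h1, h2⟩ := h c hc' ε hε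
  refine ⟨W x, C, fun h3 => h1 ((map_eq_zero_iff W W.injective).1 h3), fun n => ?_⟩
  have h3 : ∀ n : ℕ, ((T - c • (1 : H →L[ℂ] H)) ^ n) (W x) =
      W (((cj W T - c • (1 : H' →L[ℂ] H')) ^ n) x) := by
    intro n
    induction n with
    | zero => simp
    | succ n ih =>
      rw [pow_succ', ContinuousLinearMap.mul_apply, ih, pow_succ', ContinuousLinearMap.mul_apply]
      set y := ((cj W T - c • (1 : H' →L[ℂ] H')) ^ n) x
      show T (W y) - c • W y = W (cj W T y - c • y)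
      rw [map_sub, W_cj, map_smul]
  rw [h3, LinearIsometryEquiv.norm_map]
  exact h2 n

end transport

end Pool.Agent.Y283.NK
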