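import Pool.Agent.Y283.NK.Loc2
import Pool.Agent.W806.HI.G2
import Pool.Agent.W577.HI.G1

/-!
# Project NK: good couplings give hyperinvariant subspaces
-/

set_option autoImplicit false

namespace Pool.Agent.Y283.NK

open MeasureTheory Set Metric Filter Topology
open scoped InnerProductSpace ENNReal NNReal ComplexConjugate

section basics

variable {H : Type} [NormedAddCommGroup H] [InnerProductSpace ℂ H] [CompleteSpace H]

omit [CompleteSpace H] in
lemma hyp_of_eigen {T : H →L[ℂ] H} {z : ℂ} {f : H} (hf : f ≠ 0) (hT : T f = z • f)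
    (hs : ∀ c : ℂ, T ≠ c • 1) : HasHyp T := by
  refine ⟨LinearMap.ker ((T - z • (1 : H →L[ℂ] H) : H →L[ℂ] H) : H →ₗ[ℂ] H),
    (T - z • (1 : H →L[ℂ] H)).isClosed_ker, ?_, ?_, ?_⟩
  · intro h
    have h1 : f ∈ LinearMap.ker ((T - z • (1 : H →L[ℂ] H) : H →L[ℂ] H) : H →ₗ[ℂ] H) := by
      rw [LinearMap.mem_ker]
      show T f - z • f = 0
      rw [hT, sub_self]
    rw [h, Submodule.mem_bot] at h1
    exact hf h1
  · intro h
    apply hs z
    ext y
    have h1 : y ∈ LinearMap.ker ((T - z • (1 : H →L[ℂ] H) : H →L[ℂ] H) : H →ₗ[ℂ] H) := by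
      rw [h]; trivial
    rw [LinearMap.mem_ker] at h1
    have h2 : T y - z • y = 0 := h1
    show T y = z • y
    exact sub_eq_zero.1 h2
  · intro Q hQ x hx
    rw [LinearMap.mem_ker] at hx ⊢
    have h2 : T x - z • x = 0 := hx
    show T (Q x) - z • Q x = 0
    have h3 : T (Q x) = Q (T x) := (congrArg (fun L : H →L[ℂ] H => L x) hQ).symm
    rw [h3, ← map_smul, ← map_sub, h2, map_zero]

lemma hyp_of_adj_eigen {T : H →L[ℂ] H} {z : ℂ} {f : H} (hf : f ≠ 0)
    (hT : ContinuousLinearMap.adjoint T f = z • f) (hs : ∀ c : ℂ, T ≠ c • 1) : HasHyp T := by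
  set V : Submodule ℂ H :=
    (LinearMap.range ((T - (conj z) • (1 : H →L[ℂ] H) : H →L[ℂ] H) : H →ₗ[ℂ] H)).topologicalClosure
    with hV
  have hmem : ∀ y : H, T y - (conj z) • y ∈ V := fun y =>
    Submodule.le_topologicalClosure _ ⟨y, rfl⟩
  refine ⟨V, Submodule.isClosed_topologicalClosure _, ?_, ?_, ?_⟩
  · intro h
    apply hs (conj z)
    ext y
    have h1 := hmem y
    rw [h, Submodule.mem_bot] at h1
    exact sub_eq_zero.1 h1
  · intro h
    have h1 : V ≤ (Submodule.span ℂ {f})ᗮ := by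
      refine Submodule.topologicalClosure_minimal _ ?_ (Submodule.isClosed_orthogonal _)
      rintro _ ⟨y, rfl⟩
      rw [Submodule.mem_orthogonal_singleton_iff_inner_right]
      show ⟪f, T y - (conj z) • y⟫_ℂ = 0
      rw [inner_sub_right, ← ContinuousLinearMap.adjoint_inner_left, hT, inner_smul_left,
        inner_smul_right, sub_self]
    have h2 : f ∈ (Submodule.span ℂ {f})ᗮ := h1 (by rw [h]; trivial)
    rw [Submodule.mem_orthogonal_singleton_iff_inner_right] at h2
    exact hf (inner_self_eq_zero.1 h2)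
  · intro Q hQ x hx
    have h3 : MapsTo Q (V : Set H) (V : Set H) := by
      have h4 : MapsTo Q (closure (LinearMap.range ((T - (conj z) • (1 : H →L[ℂ] H) :
          H →L[ℂ] H) : H →ₗ[ℂ] H) : Set H)) (closure (LinearMap.range ((T - (conj z) •
          (1 : H →L[ℂ] H) : H →L[ℂ] H) : H →ₗ[ℂ] H) : Set H)) := by
        refine MapsTo.closure ?_ Q.continuous
        rintro _ ⟨y, rfl⟩
        refine ⟨Q y, ?_⟩
        show T (Q y) - (conj z) • Q y = Q (T y - (conj z) • y)
        have h5 : T (Q y) = Q (T y) := (congrArg (fun L : H →L[ℂ] H => L y) hQ).symm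
        rw [map_sub, map_smul, h5]
      rw [hV, Submodule.topologicalClosure_coe]
      exact h4
    exact h3 hx

/-- a point of the spectrum of an operator without eigenvectors -/
lemma not_surj {T : H →L[ℂ] H} (he : ∀ (z : ℂ) (f : H), T f = z • f → f = 0) {c : ℂ}
    (hc : c ∈ spectrum ℂ T) : ∃ x, ∀ y, c • y - T y ≠ x := by
  by_contra hcon
  push Not at hcon
  apply hc
  rw [spectrum.mem_resolventSet_iff, ContinuousLinearMap.isUnit_iff_bijective]
  have hval : ∀ y, (algebraMap ℂ (H →L[ℂ] H) c - T) y = c • y - T y := by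
    intro y
    rw [Algebra.algebraMap_eq_smul_one]
    rfl
  constructor
  · rw [injective_iff_map_eq_zero]
    intro y hy
    rw [hval, sub_eq_zero] at hy
    exact he c y hy.symm
  · intro x
    obtain ⟨y, hy⟩ := hcon x
    exact ⟨y, (hval y).trans hy⟩

omit [CompleteSpace H] in
lemma hyp_shift {T : H →L[ℂ] H} (c : ℂ)
    (h : Pool.Agent.W402.HI.HasHyp (T - c • (1 : H →L[ℂ] H))) : HasHyp T := by
  obtain ⟨V, h1, h2, h3, h4⟩ := h
  refine ⟨V, h1, h2, h3, fun Q hQ => h4 Q ?_⟩
  rw [mul_sub, sub_mul, hQ, smul_one_mul, mul_smul_one]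

end basics

end Pool.Agent.Y283.NK
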