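import Pool.Agent.Y283.NK.Stm2

/-!
# Project NK: vectors with small local spectrum
-/

set_option autoImplicit false

namespace Pool.Agent.Y283.NK

open MeasureTheory Set Metric Filter Topology
open scoped InnerProductSpace ENNReal NNReal ComplexConjugate

/-- determinants of matrices with measurable entries are measurable -/
lemma measurable_det {α : Type} [MeasurableSpace α] {n : ℕ} {A : α → Matrix (Fin n) (Fin n) ℂ}
    (hA : ∀ i j, Measurable fun a => A a i j) : Measurable fun a => (A a).det := by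
  simp only [Matrix.det_apply']
  refine Finset.measurable_sum _ fun σ _ => ?_
  exact measurable_const.mul (Finset.measurable_prod _ fun i _ => hA _ _)

/-- the numerical inequality behind the choice of the weight -/
lemma num_ineq {α β ε τ D : ℝ} (hα : 0 ≤ α) (hβ : 0 ≤ β) (hε : 0 ≤ ε) (hτ : 0 ≤ τ) (hD : 0 < D)
    {M : ℝ} (hM : 2 + (1 + τ ^ 2) * (α + β + ε) + Real.posLog D⁻¹ ≤ M) :
    Real.exp (-M) * (Real.sqrt β * Real.sqrt ε *
      (1 + Real.exp (Real.sqrt ((τ ^ 2 * α + 1) * (β + 1))) / D)) ≤ 1 := by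
  have h1 : Real.sqrt β * Real.sqrt ε ≤ Real.exp ((β + ε) / 2) := by
    have e1 : Real.sqrt β * Real.sqrt ε ≤ (β + ε) / 2 := by
      nlinarith [Real.sq_sqrt hβ, Real.sq_sqrt hε, sq_nonneg (Real.sqrt β - Real.sqrt ε)]
    exact e1.trans (by linarith [Real.add_one_le_exp ((β + ε) / 2)])
  have h2 : Real.sqrt ((τ ^ 2 * α + 1) * (β + 1)) ≤ (τ ^ 2 * α + 1 + (β + 1)) / 2 := by
    rw [Real.sqrt_le_left (by positivity)]
    nlinarith [sq_nonneg ((τ ^ 2 * α + 1) - (β + 1))]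
  set E := Real.sqrt ((τ ^ 2 * α + 1) * (β + 1)) with hE
  have hE0 : 0 ≤ E := Real.sqrt_nonneg _
  have h3 : D⁻¹ ≤ Real.exp (Real.posLog D⁻¹) := by
    have : Real.log D⁻¹ ≤ Real.posLog D⁻¹ := (le_max_right _ _)
    calc D⁻¹ = Real.exp (Real.log D⁻¹) := (Real.exp_log (by positivity)).symm
      _ ≤ _ := Real.exp_le_exp.2 this
  have h4 : (1:ℝ) ≤ Real.exp (Real.posLog D⁻¹) := Real.one_le_exp Real.posLog_nonneg
  have h5 : 1 + Real.exp E / D ≤ 2 * (Real.exp E * Real.exp (Real.posLog D⁻¹)) := by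
    have e1 : (1:ℝ) ≤ Real.exp E := Real.one_le_exp hE0
    have e2 : Real.exp E / D ≤ Real.exp E * Real.exp (Real.posLog D⁻¹) := by
      rw [div_eq_mul_inv]
      gcongr
    have e3 : (1:ℝ) ≤ Real.exp E * Real.exp (Real.posLog D⁻¹) := by nlinarith
    linarith
  have h6 : (2:ℝ) ≤ Real.exp 1 := by linarith [Real.add_one_le_exp (1:ℝ)]
  have h7 : Real.sqrt β * Real.sqrt ε * (1 + Real.exp E / D) ≤
      Real.exp ((β + ε) / 2) * (Real.exp 1 * (Real.exp E * Real.exp (Real.posLog D⁻¹))) := by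
    have e1 : 0 ≤ 1 + Real.exp E / D := by positivity
    calc Real.sqrt β * Real.sqrt ε * (1 + Real.exp E / D)
        ≤ Real.exp ((β + ε) / 2) * (2 * (Real.exp E * Real.exp (Real.posLog D⁻¹))) := by
          gcongr
      _ ≤ _ := by gcongr
  calc Real.exp (-M) * (Real.sqrt β * Real.sqrt ε * (1 + Real.exp E / D))
      ≤ Real.exp (-M) *
        (Real.exp ((β + ε) / 2) * (Real.exp 1 * (Real.exp E * Real.exp (Real.posLog D⁻¹)))) := by
        gcongr
    _ = Real.exp (-M + ((β + ε) / 2 + (1 + (E + Real.posLog D⁻¹)))) := by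
        rw [Real.exp_add, Real.exp_add, Real.exp_add, Real.exp_add]
    _ ≤ 1 := by
        apply Real.exp_le_one_iff.2
        nlinarith [mul_nonneg (sq_nonneg τ) hα, mul_nonneg (sq_nonneg τ) hβ,
          mul_nonneg (sq_nonneg τ) hε]


/-- the weight on the circle -/
noncomputable def wt {S : Type} [MeasurableSpace S] {μ : Measure S} (φ : S → ℂ)
    (u v : ℕ → Lp ℂ 2 μ) (n : ℕ) (x : Lp ℂ 2 μ) (t z : ℂ) : ℝ≥0∞ :=
  2 + ENNReal.ofReal (1 + ‖t‖ ^ 2) *
    (ea φ x z + ((∑' j, ea φ (u j) z) + ∑' j, ea φ (v j) z)) + lm ‖(MM φ u v n t z).det‖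

lemma measurable_lmdet (hMEAS : S_MEAS) {S : Type} [MeasurableSpace S] {μ : Measure S}
    [SigmaFinite μ] {φ : S → ℂ} (hφ : Measurable φ) (u v : ℕ → Lp ℂ 2 μ) (n : ℕ) (t : ℂ) :
    Measurable fun z => lm ‖(MM φ u v n t z).det‖ := by
  obtain ⟨me, mc, md, ml⟩ := hMEAS S μ φ hφ
  have h1 : Measurable fun z : ℂ => (MM φ u v n t z).det :=
    (md u v n).comp (measurable_id.prodMk measurable_const : Measurable fun z : ℂ => (z, t))
  exact ml.comp h1.norm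

lemma measurable_wt (hMEAS : S_MEAS) {S : Type} [MeasurableSpace S] {μ : Measure S}
    [SigmaFinite μ] {φ : S → ℂ} (hφ : Measurable φ) (u v : ℕ → Lp ℂ 2 μ) (n : ℕ) (x : Lp ℂ 2 μ)
    (t : ℂ) : Measurable (wt φ u v n x t) := by
  obtain ⟨me, mc, md, ml⟩ := hMEAS S μ φ hφ
  unfold wt
  refine (measurable_const.add (measurable_const.mul ((me x).add ?_))).add
    (measurable_lmdet hMEAS hφ u v n t)
  exact (Measurable.ennreal_tsum fun j => me (u j)).add (Measurable.ennreal_tsum fun j => me (v j))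

/-- consequences of finiteness of the weight -/
lemma wt_fin {S : Type} [MeasurableSpace S] {μ : Measure S} {φ : S → ℂ}
    {u v : ℕ → Lp ℂ 2 μ} {n : ℕ} {x : Lp ℂ 2 μ} {t z : ℂ} (h : wt φ u v n x t z ≠ ⊤) :
    ea φ x z ≠ ⊤ ∧ (∑' j, ea φ (u j) z) ≠ ⊤ ∧ (∑' j, ea φ (v j) z) ≠ ⊤ ∧
    (MM φ u v n t z).det ≠ 0 ∧
    2 + (1 + ‖t‖ ^ 2) * ((∑' j, ea φ (u j) z).toReal + (∑' j, ea φ (v j) z).toReal +
      (ea φ x z).toReal) + Real.posLog ‖(MM φ u v n t z).det‖⁻¹ ≤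
      (wt φ u v n x t z).toReal := by
  have hpos : (0:ℝ) < 1 + ‖t‖ ^ 2 := by positivity
  have h0 := h
  unfold wt at h
  rw [ENNReal.add_ne_top, ENNReal.add_ne_top] at h
  obtain ⟨⟨-, h1⟩, h2⟩ := h
  have h3 : ea φ x z + ((∑' j, ea φ (u j) z) + ∑' j, ea φ (v j) z) ≠ ⊤ := by
    intro h4
    rw [h4, ENNReal.mul_top (by simpa using hpos)] at h1
    exact h1 rfl
  rw [ENNReal.add_ne_top, ENNReal.add_ne_top] at h3
  obtain ⟨h4, h5, h6⟩ := h3
  have h7 : (MM φ u v n t z).det ≠ 0 := by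
    intro h8
    rw [h8] at h2
    simp [lm] at h2
  refine ⟨h4, h5, h6, h7, ?_⟩
  have h8 : lm ‖(MM φ u v n t z).det‖ =
      ENNReal.ofReal (Real.posLog ‖(MM φ u v n t z).det‖⁻¹) := by
    unfold lm
    rw [if_neg (by simpa using h7)]
  unfold wt
  rw [ENNReal.toReal_add (ENNReal.add_ne_top.2 ⟨by simp, h1⟩) h2, ENNReal.toReal_add (by simp) h1,
    ENNReal.toReal_mul, ENNReal.toReal_ofReal hpos.le,
    ENNReal.toReal_add h4 (ENNReal.add_ne_top.2 ⟨h5, h6⟩), ENNReal.toReal_add h5 h6, h8,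
    ENNReal.toReal_ofReal Real.posLog_nonneg]
  simp only [ENNReal.toReal_ofNat]
  apply le_of_eq
  ring

lemma step (hCORE : S_CORE) (hGRAM : S_GRAM) (hMEAS : S_MEAS)
    {S : Type} [MeasurableSpace S] {μ : Measure S} [SigmaFinite μ] {φ : S → ℂ}
    {N : Lp ℂ 2 μ →L[ℂ] Lp ℂ 2 μ} (hN : IsMul φ N) (u v : ℕ → Lp ℂ 2 μ) (n : ℕ) (x : Lp ℂ 2 μ)
    (t c : ℂ) (r A : ℝ) (hr : 0 < r) (hA0 : 0 ≤ A)
    (hA : (∫⁻ s, (‖x s‖ₑ ^ 2 + ∑' j, ‖u j s‖ₑ ^ 2) * (el φ c r s) ^ 2 ∂μ) ≤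
      ENNReal.ofReal (A ^ 2)) (B : ℝ≥0) (δ : ℝ)
    (hδ : ∀ m : ℝ → ℝ≥0∞, Measurable m → (∫⁻ θ in Ioc (0:ℝ) (2 * Real.pi), m θ) ≤ B →
      ∃ h : ℝ → ℂ, Measurable h ∧
        (∀ᵐ θ ∂(volume.restrict (Ioc (0:ℝ) (2 * Real.pi))),
          m θ ≠ ⊤ ∧ ‖h θ‖ ≤ Real.exp (-(m θ).toReal)) ∧
        δ ≤ ‖∫ θ in (0:ℝ)..(2 * Real.pi), h θ‖ ∧
        ∀ a : ℕ, (∫ θ in (0:ℝ)..(2 * Real.pi), h θ * (circleMap 0 1 θ) ^ (a + 1)) = 0)
    (hB : (∫⁻ θ in Ioc (0:ℝ) (2 * Real.pi), wt φ u v n x t (circleMap c r θ)) ≤ B) :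
    ∃ (X : ℕ → Lp ℂ 2 μ) (Z : Lp ℂ 2 μ) (κ : ℂ),
      (∀ a, (N + t • fr u v n) (X a) - c • X a = X (a + 1)) ∧
      (∀ a, ‖X a‖ ≤ (1 + ‖t‖) * A * r ^ a) ∧
      c • Z - (N + t • fr u v n) Z = X 0 + κ • x ∧ ‖Z‖ ≤ (1 + ‖t‖) * A / r ∧
      δ / r ≤ ‖κ‖ ∧ ‖κ‖ ≤ 2 * Real.pi / r := by
  obtain ⟨me, mc, md, ml⟩ := hMEAS S μ φ hN.meas
  have hcm : Measurable (circleMap c r) := (continuous_circleMap c r).measurable
  set m : ℝ → ℝ≥0∞ := fun θ => wt φ u v n x t (circleMap c r θ) with hmdef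
  have hm : Measurable m := (measurable_wt hMEAS hN.meas u v n x t).comp hcm
  obtain ⟨h, hh, hle, hlow, hmom⟩ := hδ m hm hB
  set G : Set ℝ := {θ | m θ ≠ ⊤ ∧ ‖h θ‖ ≤ Real.exp (-(m θ).toReal)} with hG
  have hGm : MeasurableSet G := by
    refine MeasurableSet.inter ?_ ?_
    · exact (hm (measurableSet_singleton ⊤)).compl
    · exact measurableSet_le hh.norm (Real.measurable_exp.comp hm.ennreal_toReal.neg)
  have hGae : ∀ᵐ θ ∂(volume.restrict (Ioc (0:ℝ) (2 * Real.pi))), θ ∈ G := hle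
  set MMz : ℝ → Matrix (Fin n) (Fin n) ℂ := fun θ => MM φ u v n t (circleMap c r θ) with hMMz
  set bz : ℝ → Fin n → ℂ := fun θ i => ct φ (v i) x (circleMap c r θ) with hbz
  set cr : ℝ → Fin n → ℂ := fun θ => ((MMz θ).det)⁻¹ • Matrix.cramer (MMz θ) (bz θ) with hcr
  have hMMe : ∀ i j, Measurable fun θ => MMz θ i j := by
    intro i j
    have e1 : (fun θ => MMz θ i j) = fun θ => (1 : Matrix (Fin n) (Fin n) ℂ) i j -
        t * ct φ (v i) (u j) (circleMap c r θ) := by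
      funext θ
      simp [hMMz, MM]
    rw [e1]
    exact measurable_const.sub (measurable_const.mul ((mc (v i) (u j)).comp hcm))
  have hbm : ∀ i, Measurable fun θ => bz θ i := fun i => (mc (v i) x).comp hcm
  have hcrm : ∀ i, Measurable fun θ => cr θ i := by
    intro i
    have e1 : (fun θ => cr θ i) = fun θ => ((MMz θ).det)⁻¹ * ((MMz θ).updateCol i (bz θ)).det := by
      funext θ
      simp [hcr, Matrix.cramer_apply]
    rw [e1]
    refine (measurable_det hMMe).inv.mul (measurable_det fun k l => ?_)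
    by_cases hl : l = i
    · subst hl
      simpa using hbm k
    · have e2 : (fun θ => (MMz θ).updateCol i (bz θ) k l) = fun θ => MMz θ k l := by
        funext θ
        rw [Matrix.updateCol_ne hl]
      rw [e2]
      exact hMMe k l
  -- properties on the good set
  have hgood : ∀ θ ∈ G, (MMz θ).mulVec (cr θ) = bz θ ∧
      ‖h θ‖ ^ 2 * (∑ i, ‖cr θ i‖ ^ 2) ≤ 1 ∧ ‖h θ‖ ≤ 1 := by
    intro θ hθ
    obtain ⟨h1, h2⟩ := hθ
    obtain ⟨w1, w2, w3, w4, w5⟩ := wt_fin h1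
    have hmul : (MMz θ).mulVec (cr θ) = bz θ := by
      rw [hcr]
      simp only
      rw [Matrix.mulVec_smul, Matrix.mulVec_cramer, smul_smul, inv_mul_cancel₀ w4, one_smul]
    have hb := (hGRAM S μ φ hN.meas u v n x (circleMap c r θ)
      (∑' j, ea φ (u j) (circleMap c r θ)).toReal (∑' j, ea φ (v j) (circleMap c r θ)).toReal
      (ea φ x (circleMap c r θ)).toReal ENNReal.toReal_nonneg ENNReal.toReal_nonneg
      ENNReal.toReal_nonneg (by rw [ENNReal.ofReal_toReal w2]) (by rw [ENNReal.ofReal_toReal w3])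
      (by rw [ENNReal.ofReal_toReal w1])).2 t (cr θ) w4 hmul
    have hnum := num_ineq (α := (∑' j, ea φ (u j) (circleMap c r θ)).toReal)
      (β := (∑' j, ea φ (v j) (circleMap c r θ)).toReal)
      (ε := (ea φ x (circleMap c r θ)).toReal) (τ := ‖t‖)
      (D := ‖(MM φ u v n t (circleMap c r θ)).det‖) ENNReal.toReal_nonneg ENNReal.toReal_nonneg
      ENNReal.toReal_nonneg (norm_nonneg _) (by simpa using w4) w5
    have h3 : ‖h θ‖ * Real.sqrt (∑ i, ‖cr θ i‖ ^ 2) ≤ 1 := by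
      calc ‖h θ‖ * Real.sqrt (∑ i, ‖cr θ i‖ ^ 2) ≤ Real.exp (-(m θ).toReal) * _ := by
            apply mul_le_mul h2 hb (Real.sqrt_nonneg _) (Real.exp_pos _).le
        _ ≤ 1 := hnum
    have h4 : 0 ≤ ∑ i, ‖cr θ i‖ ^ 2 := Finset.sum_nonneg fun i _ => by positivity
    refine ⟨hmul, ?_, ?_⟩
    · have h5 : ‖h θ‖ ^ 2 * (∑ i, ‖cr θ i‖ ^ 2) = (‖h θ‖ * Real.sqrt (∑ i, ‖cr θ i‖ ^ 2)) ^ 2 := by
        rw [mul_pow, Real.sq_sqrt h4]
      rw [h5]
      exact pow_le_one₀ (by positivity) h3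
    · refine h2.trans ?_
      rw [Real.exp_le_one_iff]
      simp
  set h' : ℝ → ℂ := G.indicator h with hh'
  set g : ℕ → ℝ → ℂ := fun j θ => if hj : j < n then G.indicator (fun θ => h θ * cr θ ⟨j, hj⟩) θ
    else 0 with hg
  have hh'm : Measurable h' := hh.indicator hGm
  have hgm : ∀ j, Measurable (g j) := by
    intro j
    by_cases hj : j < n
    · have e1 : g j = G.indicator (fun θ => h θ * cr θ ⟨j, hj⟩) := by
        funext θ; simp only [hg, dif_pos hj]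
      rw [e1]
      exact (hh.mul (hcrm ⟨j, hj⟩)).indicator hGm
    · have e1 : g j = fun _ => 0 := by
        funext θ; simp only [hg, dif_neg hj]
      rw [e1]
      exact measurable_const
  have hh'1 : ∀ θ, ‖h' θ‖ ≤ 1 := by
    intro θ
    by_cases hθ : θ ∈ G
    · rw [hh', indicator_of_mem hθ]; exact (hgood θ hθ).2.2
    · rw [hh', indicator_of_notMem hθ]; simp
  have hgval : ∀ θ ∈ G, ∀ i : Fin n, g i θ = h θ * cr θ i := by
    intro θ hθ i
    simp only [hg, dif_pos i.2, indicator_of_mem hθ]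
  have hg1 : ∀ θ, ∑ j ∈ Finset.range n, ‖g j θ‖ ^ 2 ≤ 1 := by
    intro θ
    rw [Finset.sum_range]
    by_cases hθ : θ ∈ G
    · calc ∑ i : Fin n, ‖g i θ‖ ^ 2 = ‖h θ‖ ^ 2 * ∑ i, ‖cr θ i‖ ^ 2 := by
            rw [Finset.mul_sum]
            refine Finset.sum_congr rfl fun i _ => ?_
            rw [hgval θ hθ i, norm_mul, mul_pow]
        _ ≤ 1 := (hgood θ hθ).2.1
    · have e1 : ∀ i : Fin n, g i θ = 0 := by
        intro i
        simp only [hg, dif_pos i.2, indicator_of_notMem hθ]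
      simp [e1]
  have hrel : ∀ᵐ θ ∂(volume.restrict (Ioc (0:ℝ) (2 * Real.pi))), ∀ i < n,
      h' θ * ct φ (v i) x (circleMap c r θ) +
        t * ∑ j ∈ Finset.range n, ct φ (v i) (u j) (circleMap c r θ) * g j θ = g i θ := by
    filter_upwards [hGae] with θ hθ i hi
    have e1 := congrFun (hgood θ hθ).1 ⟨i, hi⟩
    rw [hMMz] at e1
    simp only [MM] at e1
    rw [Matrix.sub_mulVec, Matrix.one_mulVec, Matrix.smul_mulVec] at e1
    simp only [Pi.sub_apply, Pi.smul_apply, smul_eq_mul, Matrix.mulVec, dotProduct,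
      Matrix.of_apply, hbz] at e1
    rw [Finset.sum_range, hh', indicator_of_mem hθ]
    have e2 : g i θ = h θ * cr θ ⟨i, hi⟩ := hgval θ hθ ⟨i, hi⟩
    rw [e2, ← e1]
    have e3 : ∑ j : Fin n, ct φ (v i) (u j) (circleMap c r θ) * g j θ =
        h θ * ∑ j : Fin n, ct φ (v i) (u j) (circleMap c r θ) * cr θ j := by
      rw [Finset.mul_sum]
      refine Finset.sum_congr rfl fun j _ => ?_
      rw [hgval θ hθ j]; ring
    rw [e3]
    ring
  have hpi : (0:ℝ) ≤ 2 * Real.pi := by positivity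
  have hint : ∀ F : ℝ → ℂ → ℂ, (∫ θ in (0:ℝ)..(2 * Real.pi), F θ (h' θ)) =
      ∫ θ in (0:ℝ)..(2 * Real.pi), F θ (h θ) := by
    intro F
    rw [intervalIntegral.integral_of_le hpi, intervalIntegral.integral_of_le hpi]
    refine integral_congr_ae ?_
    filter_upwards [hGae] with θ hθ
    rw [hh', indicator_of_mem hθ]
  have hmom' : ∀ a : ℕ,
      (∫ θ in (0:ℝ)..(2 * Real.pi), h' θ * (circleMap 0 1 θ) ^ (a + 1)) = 0 := by
    intro a
    rw [hint (fun θ w => w * (circleMap 0 1 θ) ^ (a + 1))]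
    exact hmom a
  obtain ⟨X, Z, x1, x2, x3, x4⟩ := hCORE S μ φ N hN u v n x t c r A h' g hr hA0 hA hh'm hgm hh'1
    hg1 hrel hmom'
  refine ⟨X, Z, _, x1, x2, x3, x4, ?_, ?_⟩
  · rw [norm_mul, norm_neg, norm_div, norm_one, Complex.norm_real, Real.norm_eq_abs,
      abs_of_pos hr, hint (fun θ w => w)]
    rw [div_eq_mul_one_div, mul_comm]
    gcongr
  · rw [norm_mul, norm_neg, norm_div, norm_one, Complex.norm_real, Real.norm_eq_abs,
      abs_of_pos hr]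
    have e1 : ‖∫ θ in (0:ℝ)..(2 * Real.pi), h' θ‖ ≤ 1 * |2 * Real.pi - 0| :=
      intervalIntegral.norm_integral_le_of_norm_le_const fun θ _ => hh'1 θ
    rw [sub_zero, abs_of_nonneg hpi, one_mul] at e1
    calc 1 / r * ‖∫ θ in (0:ℝ)..(2 * Real.pi), h' θ‖ ≤ 1 / r * (2 * Real.pi) := by gcongr
      _ = 2 * Real.pi / r := by ring

end Pool.Agent.Y283.NK
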