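import Pool.Agent.Y283.NK.Loc

/-!
# Project NK: vectors with small local spectrum, trace class case
-/

set_option autoImplicit false

namespace Pool.Agent.Y283.NK

open MeasureTheory Set Metric Filter Topology
open scoped InnerProductSpace ENNReal NNReal ComplexConjugate

theorem loc (hCORE : S_CORE) (hGRAM : S_GRAM) (hMEAS : S_MEAS) (hRAD : S_RAD) (hCSEL : S_CSEL)
    (hOUTQ : S_OUTQ) (hLIM : S_LIM) (hTRC : S_TRC)
    {S : Type} [MeasurableSpace S] {μ : Measure S} [SigmaFinite μ] {φ : S → ℂ}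
    {N : Lp ℂ 2 μ →L[ℂ] Lp ℂ 2 μ} (hN : IsMul φ N) {K : Lp ℂ 2 μ →L[ℂ] Lp ℂ 2 μ}
    {u v : ℕ → Lp ℂ 2 μ} (hK : Repr K u v) (t c : ℂ) (ρ R : ℝ) (hρ : 0 < ρ)
    (hcR : closedBall c ρ ⊆ ball (0:ℂ) R) (I : Set ℕ) (B : ℝ≥0) (hI : I.Infinite)
    (hB : ∀ n ∈ I, ∫⁻ z in ball (0:ℂ) R, lm ‖(MM φ u v n t z).det‖ ≤ B)
    (x : Lp ℂ 2 μ) (hx : ∀ y, c • y - (N + t • K) y ≠ x) :
    ∃ (r C : ℝ) (Y : ℕ → Lp ℂ 2 μ), 0 < r ∧ r ≤ ρ ∧
      (∀ a, (N + t • K) (Y a) - c • Y a = Y (a + 1)) ∧ (∀ a, ‖Y a‖ ≤ C * r ^ a) ∧ Y 0 ≠ 0 := by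
  obtain ⟨me, mc, md, ml⟩ := hMEAS S μ φ hN.meas
  have h1 := hRAD S μ φ hN.meas u x c ρ hρ hK.1
  have h2 := hRAD S μ φ hN.meas v x c ρ hρ hK.2.1
  have h3 := hCSEL R (fun n z => lm ‖(MM φ u v n t z).det‖) I B c ρ
    (fun n => measurable_lmdet hMEAS hN.meas u v n t) hI hB hρ hcR
  have : NeBot (ae (volume.restrict (Ioc (ρ / 2) ρ))) := by
    rw [ae_neBot]
    intro h
    have := Measure.restrict_eq_zero.1 h
    rw [Real.volume_Ioc, ENNReal.ofReal_eq_zero] at this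
    linarith
  obtain ⟨r, ⟨⟨⟨h1a, h1b⟩, ⟨-, h2b⟩⟩, J, B', hJ, hJI, hJB⟩, hr⟩ :=
    (((h1.and h2).and h3).and (ae_restrict_mem measurableSet_Ioc)).exists
  have hr0 : 0 < r := by linarith [hr.1]
  have hcm : Measurable (circleMap c r) := (continuous_circleMap c r).measurable
  -- the bound of the weights
  set κ : ℝ≥0∞ := ENNReal.ofReal (1 + ‖t‖ ^ 2) with hκ
  have hwt : ∀ n ∈ J, (∫⁻ θ in Ioc (0:ℝ) (2 * Real.pi), wt φ u v n x t (circleMap c r θ)) ≤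
      2 * volume (Ioc (0:ℝ) (2 * Real.pi)) +
      κ * ((∫⁻ θ in Ioc (0:ℝ) (2 * Real.pi), (ea φ x (circleMap c r θ) +
          ∑' j, ea φ (u j) (circleMap c r θ))) +
        (∫⁻ θ in Ioc (0:ℝ) (2 * Real.pi), (ea φ x (circleMap c r θ) +
          ∑' j, ea φ (v j) (circleMap c r θ)))) + B' := by
    intro n hn
    have mx : Measurable fun θ => ea φ x (circleMap c r θ) := (me x).comp hcm
    have mu : Measurable fun θ => ∑' j, ea φ (u j) (circleMap c r θ) :=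
      Measurable.tsum fun j => (me (u j)).comp hcm
    have mv : Measurable fun θ => ∑' j, ea φ (v j) (circleMap c r θ) :=
      Measurable.tsum fun j => (me (v j)).comp hcm
    calc (∫⁻ θ in Ioc (0:ℝ) (2 * Real.pi), wt φ u v n x t (circleMap c r θ))
        ≤ ∫⁻ θ in Ioc (0:ℝ) (2 * Real.pi), (2 + κ * ((ea φ x (circleMap c r θ) +
          ∑' j, ea φ (u j) (circleMap c r θ)) + (ea φ x (circleMap c r θ) +
          ∑' j, ea φ (v j) (circleMap c r θ))) +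
          lm ‖(MM φ u v n t (circleMap c r θ)).det‖) := by
          refine lintegral_mono fun θ => ?_
          unfold wt
          refine add_le_add (add_le_add le_rfl (mul_le_mul_right ?_ _)) le_rfl
          rw [add_assoc]
          refine add_le_add le_rfl (add_le_add le_rfl ?_)
          exact le_add_self
      _ = 2 * volume (Ioc (0:ℝ) (2 * Real.pi)) +
          κ * ((∫⁻ θ in Ioc (0:ℝ) (2 * Real.pi), (ea φ x (circleMap c r θ) +
          ∑' j, ea φ (u j) (circleMap c r θ))) +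
        (∫⁻ θ in Ioc (0:ℝ) (2 * Real.pi), (ea φ x (circleMap c r θ) +
          ∑' j, ea φ (v j) (circleMap c r θ)))) +
          ∫⁻ θ in Ioc (0:ℝ) (2 * Real.pi), lm ‖(MM φ u v n t (circleMap c r θ)).det‖ := by
          rw [lintegral_add_left, lintegral_add_left, lintegral_const_mul, lintegral_add_left,
            lintegral_const, Measure.restrict_apply MeasurableSet.univ, univ_inter]
          · exact mx.add mu
          · exact (mx.add mu).add (mx.add mv)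
          · exact measurable_const
          · exact measurable_const.add (measurable_const.mul ((mx.add mu).add (mx.add mv)))
      _ ≤ _ := add_le_add le_rfl (hJB n hn)
  have hfin : 2 * volume (Ioc (0:ℝ) (2 * Real.pi)) +
      κ * ((∫⁻ θ in Ioc (0:ℝ) (2 * Real.pi), (ea φ x (circleMap c r θ) +
          ∑' j, ea φ (u j) (circleMap c r θ))) +
        (∫⁻ θ in Ioc (0:ℝ) (2 * Real.pi), (ea φ x (circleMap c r θ) +
          ∑' j, ea φ (v j) (circleMap c r θ)))) + B' ≠ ⊤ := by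
    refine ENNReal.add_ne_top.2 ⟨ENNReal.add_ne_top.2 ⟨?_, ?_⟩, ENNReal.coe_ne_top⟩
    · exact ENNReal.mul_ne_top (by simp) (by rw [Real.volume_Ioc]; exact ENNReal.ofReal_ne_top)
    · exact ENNReal.mul_ne_top ENNReal.ofReal_ne_top (ENNReal.add_ne_top.2 ⟨h1b, h2b⟩)
  obtain ⟨B₂, hB₂⟩ : ∃ B₂ : ℝ≥0, (B₂ : ℝ≥0∞) = _ := ⟨_, ENNReal.coe_toNNReal hfin⟩
  obtain ⟨δ, hδ0, hδ⟩ := hOUTQ B₂
  set A : ℝ := Real.sqrt (∫⁻ s, (‖x s‖ₑ ^ 2 + ∑' j, ‖u j s‖ₑ ^ 2) * (el φ c r s) ^ 2 ∂μ).toReal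
    with hAdef
  have hA0 : 0 ≤ A := Real.sqrt_nonneg _
  have hA : (∫⁻ s, (‖x s‖ₑ ^ 2 + ∑' j, ‖u j s‖ₑ ^ 2) * (el φ c r s) ^ 2 ∂μ) ≤
      ENNReal.ofReal (A ^ 2) := by
    rw [hAdef, Real.sq_sqrt ENNReal.toReal_nonneg, ENNReal.ofReal_toReal h1a]
  have hstep : ∀ n : ℕ, ∃ (X : ℕ → Lp ℂ 2 μ) (Z : Lp ℂ 2 μ) (κ : ℂ), n ∈ J →
      (∀ a, (N + t • fr u v n) (X a) - c • X a = X (a + 1)) ∧
      (∀ a, ‖X a‖ ≤ (1 + ‖t‖) * A * r ^ a) ∧
      c • Z - (N + t • fr u v n) Z = X 0 + κ • x ∧ ‖Z‖ ≤ (1 + ‖t‖) * A / r ∧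
      δ / r ≤ ‖κ‖ ∧ ‖κ‖ ≤ 2 * Real.pi / r := by
    intro n
    by_cases hn : n ∈ J
    · obtain ⟨X, Z, k, h⟩ := step hCORE hGRAM hMEAS hN u v n x t c r A hr0 hA0 hA B₂ δ hδ
        (by rw [hB₂]; exact hwt n hn)
      exact ⟨X, Z, k, fun _ => h⟩
    · exact ⟨fun _ => 0, 0, 0, fun h => absurd h hn⟩
  choose X Z k hXZ using hstep
  set C : ℝ := (1 + ‖t‖) * A + (1 + ‖t‖) * A / r + 2 * Real.pi / r with hC
  have p1 : 0 ≤ (1 + ‖t‖) * A := by positivity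
  have p2 : 0 ≤ (1 + ‖t‖) * A / r := by positivity
  have p3 : 0 ≤ 2 * Real.pi / r := by positivity
  have hlimT : Tendsto (fun n => N + t • fr u v n) atTop (𝓝 (N + t • K)) :=
    ((hTRC _ K u v hK).2.2.1.const_smul t).const_add N
  obtain ⟨Y, W, κ', y1, y2, y3, y4⟩ := hLIM (Lp ℂ 2 μ) (N + t • K) (fun n => N + t • fr u v n) c r
    C (δ / r) x X Z k J hJ hr0.le (by positivity) hlimT (fun n hn => (hXZ n hn).1)
    (fun n hn a => ((hXZ n hn).2.1 a).trans (by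
      have : 0 ≤ r ^ a := by positivity
      exact mul_le_mul_of_nonneg_right (by rw [hC]; linarith) this))
    (fun n hn => (hXZ n hn).2.2.1)
    (fun n hn => (hXZ n hn).2.2.2.1.trans (by rw [hC]; linarith))
    (fun n hn => ⟨(hXZ n hn).2.2.2.2.1, (hXZ n hn).2.2.2.2.2.trans (by rw [hC]; linarith)⟩)
  refine ⟨r, C, Y, hr0, hr.2, y1, y2, ?_⟩
  intro hY
  rw [hY, zero_add] at y3
  apply hx (κ'⁻¹ • W)
  rw [map_smul, smul_comm, ← smul_sub, y3, smul_smul, inv_mul_cancel₀ y4, one_smul]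

end Pool.Agent.Y283.NK
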