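import Pool.Agent.Y283.NK.L2c
import Pool.Agent.Y978.NK.DET
import Pool.Agent.Y907.NK.INV
import Pool.Agent.Y891.NK.POT
import Pool.Agent.Y891.NK.AREA
import Pool.Agent.Y779.NK.CIRC
import Pool.Agent.Y681.NK.OUTQ
import Pool.Agent.Y454.NK.LIM
import Pool.Agent.Y487.NK.SEL
import Pool.Agent.Y25.NK.SPN
import Pool.Agent.Y180.NK.CORE
import Pool.Agent.Y604.NK.GRAM
import Pool.Agent.Y604.NK.MEAS
import Pool.Agent.Y708.NK.RAD
import Pool.Agent.Y529.NK.ANN
import Pool.Agent.Y77.NK.ADJ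

/-!
# Project NK: the theorem
-/

set_option autoImplicit false

namespace Pool.Agent.Y283.NK

open MeasureTheory Set Metric Filter Topology
open scoped InnerProductSpace ENNReal NNReal ComplexConjugate

theorem main0 (H : Type) [NormedAddCommGroup H] [InnerProductSpace ℂ H] [CompleteSpace H]
    [TopologicalSpace.SeparableSpace H] (N K : H →L[ℂ] H) (hN : IsStarNormal N) (u v : ℕ → H)
    (hK : Repr K u v) (m : Measure ℂ) [SFinite m] (hm : LogBd m) :
    ∀ᵐ t ∂m, ((∃ c : ℂ, N + t • K = c • 1) ∨ HasHyp (N + t • K)) ∧ LocVec (N + t • K) ∧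
      LocVec (ContinuousLinearMap.adjoint (N + t • K)) := by
  obtain ⟨S, _, μ, _, φ, W, hφ, hφb, hW⟩ := Pool.Agent.Y25.NK.SPN.main H N hN
  have hMul : IsMul φ (cj W N) := by
    refine ⟨hφ, ⟨‖N‖, hφb⟩, fun f => ?_⟩
    have h1 : MemLp (fun s => φ s * f s) 2 μ := by
      refine MemLp.of_le_mul (c := ‖N‖) (Lp.memLp f)
        (hφ.aestronglyMeasurable.mul (Lp.aestronglyMeasurable f))
        (Eventually.of_forall fun s => ?_)
      rw [norm_mul]
      exact mul_le_mul_of_nonneg_right (hφb s) (norm_nonneg _)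
    have h2 := hW f (h1.toLp _) h1.coeFn_toLp
    rw [cj_apply, h2, LinearIsometryEquiv.symm_apply_apply]
    exact h1.coeFn_toLp
  have hTRC : S_TRC := Pool.Agent.Y77.NK.main_trc
  have hADJ : S_ADJ := Pool.Agent.Y77.NK.main_adj
  have hK' : Repr (cj W K) (fun j => W.symm (u j)) (fun j => W.symm (v j)) :=
    (hTRC H K u v hK).2.2.2 (Lp ℂ 2 μ) W (cj W K) (fun f => W_cj W K f)
  have hGRAM := Pool.Agent.Y604.NK.GRAM.main
  have hMEAS := Pool.Agent.Y604.NK.main_meas
  have hall : ∀ᵐ t ∂m, ∀ k : ℕ, t ∈ ball (0:ℂ) k → ∃ (I : Set ℕ) (B : ℝ≥0), I.Infinite ∧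
      ∀ n ∈ I, ∫⁻ z in ball (0:ℂ) (‖cj W N‖ + k * ‖cj W K‖ + 2),
        lm ‖(MM φ (fun j => W.symm (u j)) (fun j => W.symm (v j)) n t z).det‖ ≤ B := by
    rw [ae_all_iff]
    intro k
    rw [← ae_restrict_iff' measurableSet_ball]
    exact gen hGRAM hMEAS Pool.Agent.Y891.NK.main Pool.Agent.Y604.NK.main_eai
      Pool.Agent.Y487.NK.main_sel hφ hK'.1 hK'.2.1 m hm k _
  filter_upwards [hall] with t ht
  obtain ⟨k, hk⟩ := exists_nat_gt ‖t‖
  obtain ⟨I, B, hI, hB⟩ := ht k (by rw [mem_ball_zero_iff]; exact hk)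
  have hR : ‖cj W N + t • cj W K‖ + 1 < ‖cj W N‖ + k * ‖cj W K‖ + 2 := by
    have h1 : ‖cj W N + t • cj W K‖ ≤ ‖cj W N‖ + ‖t‖ * ‖cj W K‖ :=
      (norm_add_le _ _).trans (by rw [norm_smul])
    have h2 : ‖t‖ * ‖cj W K‖ ≤ k * ‖cj W K‖ := mul_le_mul_of_nonneg_right hk.le (norm_nonneg _)
    linarith
  have hCORE := Pool.Agent.Y180.NK.CORE.main
  have hRAD := Pool.Agent.Y708.NK.main
  have hCSEL := Pool.Agent.Y487.NK.main_csel
  have hOUTQ := Pool.Agent.Y681.NK.OUTQ.main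
  have hLIM := Pool.Agent.Y454.NK.main
  have hANN := Pool.Agent.Y529.NK.ANN.main
  have hadj : ContinuousLinearMap.adjoint (cj W N + t • cj W K) =
      ContinuousLinearMap.adjoint (cj W N) + (conj t) • ContinuousLinearMap.adjoint (cj W K) := by
    rw [map_add]
    congr 1
    ext1 f
    refine ext_inner_right ℂ fun y => ?_
    rw [ContinuousLinearMap.adjoint_inner_left]
    show ⟪f, t • cj W K y⟫_ℂ = ⟪(conj t) • ContinuousLinearMap.adjoint (cj W K) f, y⟫_ℂ
    rw [inner_smul_right, inner_smul_left, ContinuousLinearMap.adjoint_inner_left,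
      Complex.conj_conj]
  refine ⟨?_, ?_, ?_⟩
  · rcases l2 hCORE hGRAM hMEAS hRAD hCSEL hOUTQ hLIM hTRC hADJ hANN hMul hK' t _ hR I B hI hB with
      ⟨c, hc⟩ | h
    · rw [← cj_add_smul] at hc
      exact Or.inl ⟨c, scalar_of_cj W hc⟩
    · rw [← cj_add_smul] at h
      exact Or.inr (hyp_of_cj W h)
  · have h := locvec hCORE hGRAM hMEAS hRAD hCSEL hOUTQ hLIM hTRC hMul hK' t _ hR I B hI hB
    rw [← cj_add_smul] at h
    exact locvec_of_cj W h
  · have hR' : ‖ContinuousLinearMap.adjoint (cj W N) +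
        (conj t) • ContinuousLinearMap.adjoint (cj W K)‖ + 1 <
        ‖cj W N‖ + k * ‖cj W K‖ + 2 := by
      rw [← hadj, LinearIsometryEquiv.norm_map]
      exact hR
    have h := locvec hCORE hGRAM hMEAS hRAD hCSEL hOUTQ hLIM hTRC (hADJ S μ φ _ hMul).1
      (hTRC _ _ _ _ hK').1 (conj t) _ hR' I B hI (fun n hn => by
        rw [reflect hADJ hMul]
        exact hB n hn)
    rw [← hadj] at h
    have h2 : ContinuousLinearMap.adjoint (cj W N + t • cj W K) =
        cj W (ContinuousLinearMap.adjoint (N + t • K)) := by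
      rw [← cj_add_smul]
      ext1 f
      refine ext_inner_right ℂ fun y => ?_
      rw [ContinuousLinearMap.adjoint_inner_left, cj_apply, cj_apply]
      calc ⟪f, W.symm ((N + t • K) (W y))⟫_ℂ = ⟪W f, (N + t • K) (W y)⟫_ℂ := by
            rw [← W.inner_map_map, LinearIsometryEquiv.apply_symm_apply]
        _ = ⟪ContinuousLinearMap.adjoint (N + t • K) (W f), W y⟫_ℂ := by
            rw [ContinuousLinearMap.adjoint_inner_left]
        _ = ⟪W.symm (ContinuousLinearMap.adjoint (N + t • K) (W f)), y⟫_ℂ := by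
            rw [← W.inner_map_map, LinearIsometryEquiv.apply_symm_apply]
    rw [h2] at h
    exact locvec_of_cj W h

end Pool.Agent.Y283.NK
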