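import Mathlib

/-!
# Project NK (MP_f981b0_an): hyperinvariant subspaces of `N + t K`, `N` normal, `K` trace class

Statements of the independent parts.
-/

set_option autoImplicit false

namespace Pool.Agent.Y283.NK

open MeasureTheory Set Metric Filter Topology
open scoped InnerProductSpace ENNReal NNReal

/-- `log⁺ (1 / x)` as an extended number, `∞` at `x = 0` -/
noncomputable def lm (x : ℝ) : ℝ≥0∞ := if x = 0 then ⊤ else ENNReal.ofReal (Real.posLog x⁻¹)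

/-- the measure `m` has locally bounded mass and locally bounded logarithmic potential -/
def LogBd (m : Measure ℂ) : Prop :=
  ∀ R : ℝ, ∃ C : ℝ≥0, m (ball (0:ℂ) R) ≤ C ∧
    ∀ s : ℂ, ∫⁻ t in ball (0:ℂ) R, lm ‖t - s‖ ∂m ≤ C

/-- DET: the eigenvalues of the matrix `⟪q i, p j⟫` (Weyl's inequality) -/
def S_DET : Prop :=
  ∀ (E : Type) [NormedAddCommGroup E] [InnerProductSpace ℂ E] (n : ℕ) (p q : Fin n → E),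
    ∃ μ : Fin n → ℂ,
      (∀ t : ℂ, ((1 : Matrix (Fin n) (Fin n) ℂ) -
        t • Matrix.of (fun i j => ⟪q i, p j⟫_ℂ)).det = ∏ k, (1 - t * μ k)) ∧
      ∑ k, ‖μ k‖ ≤ Real.sqrt (∑ j, ‖p j‖ ^ 2) * Real.sqrt (∑ i, ‖q i‖ ^ 2)

/-- INV: bound for the inverse of `1 - t A`, `A i j = ⟪q i, p j⟫`, uniform in the size -/
def S_INV : Prop :=
  ∀ (E : Type) [NormedAddCommGroup E] [InnerProductSpace ℂ E] (n : ℕ) (p q : Fin n → E) (t : ℂ)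
    (b c : Fin n → ℂ),
    ((1 : Matrix (Fin n) (Fin n) ℂ) - t • Matrix.of (fun i j => ⟪q i, p j⟫_ℂ)).det ≠ 0 →
    ((1 : Matrix (Fin n) (Fin n) ℂ) - t • Matrix.of (fun i j => ⟪q i, p j⟫_ℂ)).mulVec c = b →
    Real.sqrt (∑ i, ‖c i‖ ^ 2) ≤ Real.sqrt (∑ i, ‖b i‖ ^ 2) *
      (1 + Real.exp (Real.sqrt ((‖t‖ ^ 2 * ∑ j, ‖p j‖ ^ 2 + 1) * (∑ i, ‖q i‖ ^ 2 + 1))) /
        ‖((1 : Matrix (Fin n) (Fin n) ℂ) - t • Matrix.of (fun i j => ⟪q i, p j⟫_ℂ)).det‖)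

/-- POT: the integral over `t` of the logarithm of a determinant -/
def S_POT : Prop :=
  ∀ m : Measure ℂ, LogBd m → ∀ R : ℝ, ∃ C : ℝ≥0, ∀ (n : ℕ) (μ : Fin n → ℂ),
    ∫⁻ t in ball (0:ℂ) R, lm ‖∏ k, (1 - t * μ k)‖ ∂m ≤ C * ENNReal.ofReal (∑ k, ‖μ k‖)

/-- AREA: area integrals of the Cauchy kernel -/
def S_AREA : Prop :=
  ∀ R : ℝ, ∃ C : ℝ≥0, ∀ w : ℂ, ∫⁻ z in ball (0:ℂ) R, ‖z - w‖ₑ⁻¹ ≤ C

/-- VOL: Lebesgue measure on the plane and on the real line have bounded logarithmic potentials -/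
def S_VOL : Prop :=
  LogBd (volume : Measure ℂ) ∧ LogBd (Measure.map (fun t : ℝ => (t : ℂ)) volume)

/-- CIRC: the integrals of the Cauchy kernel over circles are square integrable in the radius -/
def S_CIRC : Prop :=
  ∀ ρ : ℝ, 0 < ρ → ∃ C : ℝ≥0, ∀ c w : ℂ,
    ∫⁻ r in Ioc (ρ / 2) ρ,
      (∫⁻ θ in Ioc (0:ℝ) (2 * Real.pi), ‖circleMap c r θ - w‖ₑ⁻¹) ^ 2 ≤ C

/-- OUTQ: outer functions for measurable data, with a lower bound for the mean value -/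
def S_OUTQ : Prop :=
  ∀ B : ℝ≥0, ∃ δ : ℝ, 0 < δ ∧ ∀ m : ℝ → ℝ≥0∞, Measurable m →
    (∫⁻ θ in Ioc (0:ℝ) (2 * Real.pi), m θ) ≤ B →
    ∃ h : ℝ → ℂ, Measurable h ∧
      (∀ᵐ θ ∂(volume.restrict (Ioc (0:ℝ) (2 * Real.pi))),
        m θ ≠ ⊤ ∧ ‖h θ‖ ≤ Real.exp (-(m θ).toReal)) ∧
      δ ≤ ‖∫ θ in (0:ℝ)..(2 * Real.pi), h θ‖ ∧
      ∀ a : ℕ, (∫ θ in (0:ℝ)..(2 * Real.pi), h θ * (circleMap 0 1 θ) ^ (a + 1)) = 0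

/-- LIM: weak limits of local resolvents -/
def S_LIM : Prop :=
  ∀ (H : Type) [NormedAddCommGroup H] [InnerProductSpace ℂ H] [CompleteSpace H]
    (T : H →L[ℂ] H) (S : ℕ → (H →L[ℂ] H)) (c : ℂ) (r C δ : ℝ) (x : H) (X : ℕ → ℕ → H)
    (Z : ℕ → H) (κ : ℕ → ℂ) (I : Set ℕ), I.Infinite → 0 ≤ r → 0 < δ →
    Tendsto S atTop (𝓝 T) →
    (∀ n ∈ I, ∀ a, S n (X n a) - c • X n a = X n (a + 1)) →
    (∀ n ∈ I, ∀ a, ‖X n a‖ ≤ C * r ^ a) →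
    (∀ n ∈ I, c • Z n - S n (Z n) = X n 0 + κ n • x) →
    (∀ n ∈ I, ‖Z n‖ ≤ C) → (∀ n ∈ I, δ ≤ ‖κ n‖ ∧ ‖κ n‖ ≤ C) →
    ∃ (Y : ℕ → H) (W : H) (k : ℂ), (∀ a, T (Y a) - c • Y a = Y (a + 1)) ∧
      (∀ a, ‖Y a‖ ≤ C * r ^ a) ∧ c • W - T W = Y 0 + k • x ∧ k ≠ 0

/-- SEL: choice of the coupling `t` -/
def S_SEL : Prop :=
  ∀ (m : Measure ℂ) [SFinite m] (R R' : ℝ) (G : ℕ → ℂ → ℂ → ℝ≥0∞) (C : ℝ≥0),
    (∀ n, Measurable (fun p : ℂ × ℂ => G n p.1 p.2)) →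
    (∀ n, ∫⁻ z in ball (0:ℂ) R', ∫⁻ t in ball (0:ℂ) R, G n z t ∂m ≤ C) →
    ∀ᵐ t ∂(m.restrict (ball (0:ℂ) R)), ∃ (I : Set ℕ) (B : ℝ≥0), I.Infinite ∧
      ∀ n ∈ I, ∫⁻ z in ball (0:ℂ) R', G n z t ≤ B

/-- CSEL: choice of the radius -/
def S_CSEL : Prop :=
  ∀ (R : ℝ) (g : ℕ → ℂ → ℝ≥0∞) (I : Set ℕ) (B : ℝ≥0) (c : ℂ) (ρ : ℝ),
    (∀ n, Measurable (g n)) → I.Infinite → (∀ n ∈ I, ∫⁻ z in ball (0:ℂ) R, g n z ≤ B) →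
    0 < ρ → closedBall c ρ ⊆ ball (0:ℂ) R →
    ∀ᵐ r ∂(volume.restrict (Ioc (ρ / 2) ρ)), ∃ (J : Set ℕ) (B' : ℝ≥0), J.Infinite ∧ J ⊆ I ∧
      ∀ n ∈ J, ∫⁻ θ in Ioc (0:ℝ) (2 * Real.pi), g n (circleMap c r θ) ≤ B'

/-- SPN: normal operators are multiplication operators -/
def S_SPN : Prop :=
  ∀ (H : Type) [NormedAddCommGroup H] [InnerProductSpace ℂ H] [CompleteSpace H]
    [TopologicalSpace.SeparableSpace H] (N : H →L[ℂ] H), IsStarNormal N →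
    ∃ (S : Type) (_ : MeasurableSpace S) (μ : Measure S) (_ : SigmaFinite μ) (φ : S → ℂ)
      (W : Lp ℂ 2 μ ≃ₗᵢ[ℂ] H), Measurable φ ∧ (∀ s, ‖φ s‖ ≤ ‖N‖) ∧
      ∀ f g : Lp ℂ 2 μ, (⇑g =ᵐ[μ] fun s => φ s * f s) → N (W f) = W g

end Pool.Agent.Y283.NK
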