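import Pool.Agent.Y283.NK.Stm

/-!
# Project NK, second round: multiplication operators on `L²` plus operators of finite rank
-/

set_option autoImplicit false

namespace Pool.Agent.Y283.NK

open MeasureTheory Set Metric Filter Topology
open scoped InnerProductSpace ENNReal NNReal ComplexConjugate

/-- the circle integral of the Cauchy kernel -/
noncomputable def el {S : Type} (φ : S → ℂ) (c : ℂ) (r : ℝ) (s : S) : ℝ≥0∞ :=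
  ∫⁻ θ in Ioc (0:ℝ) (2 * Real.pi), ‖circleMap c r θ - φ s‖ₑ⁻¹

/-- the potential of the measure `|f|² μ` -/
noncomputable def ea {S : Type} [MeasurableSpace S] {μ : Measure S} (φ : S → ℂ) (f : Lp ℂ 2 μ)
    (z : ℂ) : ℝ≥0∞ :=
  ∫⁻ s, ‖f s‖ₑ ^ 2 * ‖z - φ s‖ₑ⁻¹ ∂μ

/-- the Cauchy transform of the measure `conj g f μ` -/
noncomputable def ct {S : Type} [MeasurableSpace S] {μ : Measure S} (φ : S → ℂ)
    (g f : Lp ℂ 2 μ) (z : ℂ) : ℂ :=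
  ∫ s, conj (g s) * f s * (z - φ s)⁻¹ ∂μ

/-- the matrix `1 - t F(z)` of size `n` -/
noncomputable def MM {S : Type} [MeasurableSpace S] {μ : Measure S} (φ : S → ℂ)
    (u v : ℕ → Lp ℂ 2 μ) (n : ℕ) (t z : ℂ) : Matrix (Fin n) (Fin n) ℂ :=
  1 - t • Matrix.of (fun i j : Fin n => ct φ (v i) (u j) z)

/-- the operator of finite rank `f ↦ ∑_{j < n} ⟪v j, f⟫ u j` -/
noncomputable def fr {H : Type} [NormedAddCommGroup H] [InnerProductSpace ℂ H] (u v : ℕ → H)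
    (n : ℕ) : H →L[ℂ] H :=
  ∑ j ∈ Finset.range n, (innerSL ℂ (v j)).smulRight (u j)

/-- `K f = ∑ ⟪v j, f⟫ u j` with square summable norms of `u j` and `v j` -/
def Repr {H : Type} [NormedAddCommGroup H] [InnerProductSpace ℂ H] (K : H →L[ℂ] H)
    (u v : ℕ → H) : Prop :=
  Summable (fun j => ‖u j‖ ^ 2) ∧ Summable (fun j => ‖v j‖ ^ 2) ∧
    ∀ f, HasSum (fun j => ⟪v j, f⟫_ℂ • u j) (K f)

/-- `N` is the multiplication by the bounded measurable function `φ` -/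
structure IsMul {S : Type} [MeasurableSpace S] {μ : Measure S} (φ : S → ℂ)
    (N : Lp ℂ 2 μ →L[ℂ] Lp ℂ 2 μ) : Prop where
  meas : Measurable φ
  bdd : ∃ M : ℝ, ∀ s, ‖φ s‖ ≤ M
  eq : ∀ f : Lp ℂ 2 μ, (⇑(N f) =ᵐ[μ] fun s => φ s * f s)

/-- `T` has a nontrivial closed hyperinvariant subspace -/
def HasHyp {X : Type} [NormedAddCommGroup X] [NormedSpace ℂ X] (T : X →L[ℂ] X) : Prop :=
  ∃ V : Submodule ℂ X, IsClosed (V : Set X) ∧ V ≠ ⊥ ∧ V ≠ ⊤ ∧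
    ∀ Q : X →L[ℂ] X, Q * T = T * Q → ∀ x ∈ V, Q x ∈ V

/-- CORE: the vectors obtained by integrating the formal local resolvent over a circle -/
def S_CORE : Prop :=
  ∀ (S : Type) [MeasurableSpace S] (μ : Measure S) [SigmaFinite μ] (φ : S → ℂ)
    (N : Lp ℂ 2 μ →L[ℂ] Lp ℂ 2 μ), IsMul φ N →
    ∀ (u v : ℕ → Lp ℂ 2 μ) (n : ℕ) (x : Lp ℂ 2 μ) (t c : ℂ) (r A : ℝ) (h : ℝ → ℂ)
      (g : ℕ → ℝ → ℂ), 0 < r → 0 ≤ A →
      (∫⁻ s, (‖x s‖ₑ ^ 2 + ∑' j, ‖u j s‖ₑ ^ 2) * (el φ c r s) ^ 2 ∂μ) ≤ ENNReal.ofReal (A ^ 2) →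
      Measurable h → (∀ j, Measurable (g j)) → (∀ θ, ‖h θ‖ ≤ 1) →
      (∀ θ, ∑ j ∈ Finset.range n, ‖g j θ‖ ^ 2 ≤ 1) →
      (∀ᵐ θ ∂(volume.restrict (Ioc (0:ℝ) (2 * Real.pi))), ∀ i < n,
        h θ * ct φ (v i) x (circleMap c r θ) +
          t * ∑ j ∈ Finset.range n, ct φ (v i) (u j) (circleMap c r θ) * g j θ = g i θ) →
      (∀ a : ℕ, (∫ θ in (0:ℝ)..(2 * Real.pi), h θ * (circleMap 0 1 θ) ^ (a + 1)) = 0) →
      ∃ (X : ℕ → Lp ℂ 2 μ) (Z : Lp ℂ 2 μ),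
        (∀ a, (N + t • fr u v n) (X a) - c • X a = X (a + 1)) ∧
        (∀ a, ‖X a‖ ≤ (1 + ‖t‖) * A * r ^ a) ∧
        c • Z - (N + t • fr u v n) Z =
          X 0 + (-(1 / (r:ℂ)) * ∫ θ in (0:ℝ)..(2 * Real.pi), h θ) • x ∧
        ‖Z‖ ≤ (1 + ‖t‖) * A / r

/-- GRAM: the matrix `F(z)` is a matrix of inner products -/
def S_GRAM : Prop :=
  ∀ (S : Type) [MeasurableSpace S] (μ : Measure S) [SigmaFinite μ] (φ : S → ℂ), Measurable φ →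
    ∀ (u v : ℕ → Lp ℂ 2 μ) (n : ℕ) (x : Lp ℂ 2 μ) (z : ℂ) (α β ε : ℝ), 0 ≤ α → 0 ≤ β → 0 ≤ ε →
      (∑' j, ea φ (u j) z) ≤ ENNReal.ofReal α → (∑' j, ea φ (v j) z) ≤ ENNReal.ofReal β →
      ea φ x z ≤ ENNReal.ofReal ε →
      (∃ m : Fin n → ℂ, (∀ t : ℂ, (MM φ u v n t z).det = ∏ k, (1 - t * m k)) ∧
        ∑ k, ‖m k‖ ≤ Real.sqrt α * Real.sqrt β) ∧
      (∀ (t : ℂ) (c : Fin n → ℂ), (MM φ u v n t z).det ≠ 0 →
        (MM φ u v n t z).mulVec c = (fun i : Fin n => ct φ (v i) x z) →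
        Real.sqrt (∑ i, ‖c i‖ ^ 2) ≤ Real.sqrt β * Real.sqrt ε *
          (1 + Real.exp (Real.sqrt ((‖t‖ ^ 2 * α + 1) * (β + 1))) / ‖(MM φ u v n t z).det‖))

/-- MEAS: measurability of the potentials, Cauchy transforms and determinants -/
def S_MEAS : Prop :=
  ∀ (S : Type) [MeasurableSpace S] (μ : Measure S) [SigmaFinite μ] (φ : S → ℂ), Measurable φ →
    (∀ f : Lp ℂ 2 μ, Measurable (ea φ f)) ∧ (∀ g f : Lp ℂ 2 μ, Measurable (ct φ g f)) ∧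
    (∀ (u v : ℕ → Lp ℂ 2 μ) (n : ℕ), Measurable (fun p : ℂ × ℂ => (MM φ u v n p.2 p.1).det)) ∧
    Measurable lm

/-- RAD: almost every radius is good -/
def S_RAD : Prop :=
  ∀ (S : Type) [MeasurableSpace S] (μ : Measure S) [SigmaFinite μ] (φ : S → ℂ), Measurable φ →
    ∀ (u : ℕ → Lp ℂ 2 μ) (x : Lp ℂ 2 μ) (c : ℂ) (ρ : ℝ), 0 < ρ →
      Summable (fun j => ‖u j‖ ^ 2) →
      ∀ᵐ r ∂(volume.restrict (Ioc (ρ / 2) ρ)),
        (∫⁻ s, (‖x s‖ₑ ^ 2 + ∑' j, ‖u j s‖ₑ ^ 2) * (el φ c r s) ^ 2 ∂μ) ≠ ⊤ ∧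
        (∫⁻ θ in Ioc (0:ℝ) (2 * Real.pi), (ea φ x (circleMap c r θ) +
          ∑' j, ea φ (u j) (circleMap c r θ))) ≠ ⊤

/-- EAI: the potentials are locally integrable -/
def S_EAI : Prop :=
  ∀ (S : Type) [MeasurableSpace S] (μ : Measure S) [SigmaFinite μ] (φ : S → ℂ), Measurable φ →
    ∀ (u : ℕ → Lp ℂ 2 μ), Summable (fun j => ‖u j‖ ^ 2) → ∀ R : ℝ,
      (∫⁻ z in ball (0:ℂ) R, ∑' j, ea φ (u j) z) ≠ ⊤

/-- ANN: vectors with disjoint local spectra annihilate each other -/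
def S_ANN : Prop :=
  ∀ (H : Type) [NormedAddCommGroup H] [InnerProductSpace ℂ H] [CompleteSpace H] (T : H →L[ℂ] H)
    (c₁ c₂ : ℂ) (r₁ r₂ C₁ C₂ : ℝ) (X Y : ℕ → H), 0 ≤ r₁ → 0 ≤ r₂ → r₁ + r₂ < ‖c₁ - c₂‖ →
    (∀ a, T (X a) - c₁ • X a = X (a + 1)) → (∀ a, ‖X a‖ ≤ C₁ * r₁ ^ a) →
    (∀ a, ContinuousLinearMap.adjoint T (Y a) - (conj c₂) • Y a = Y (a + 1)) →
    (∀ a, ‖Y a‖ ≤ C₂ * r₂ ^ a) → X 0 ≠ 0 → Y 0 ≠ 0 → HasHyp T

/-- ADJ: adjoints -/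
def S_ADJ : Prop :=
  ∀ (S : Type) [MeasurableSpace S] (μ : Measure S) [SigmaFinite μ] (φ : S → ℂ)
    (N : Lp ℂ 2 μ →L[ℂ] Lp ℂ 2 μ), IsMul φ N →
    IsMul (fun s => conj (φ s)) (ContinuousLinearMap.adjoint N) ∧
    ∀ (u v : ℕ → Lp ℂ 2 μ) (n : ℕ) (t z : ℂ),
      (MM (fun s => conj (φ s)) v u n (conj t) (conj z)).det = conj (MM φ u v n t z).det

/-- TRC: trace class operators -/
def S_TRC : Prop :=
  ∀ (H : Type) [NormedAddCommGroup H] [InnerProductSpace ℂ H] [CompleteSpace H]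
    (K : H →L[ℂ] H) (u v : ℕ → H), Repr K u v →
    Repr (ContinuousLinearMap.adjoint K) v u ∧ IsCompactOperator K ∧
    Tendsto (fun n => fr u v n) atTop (𝓝 K) ∧
    ∀ (H' : Type) [NormedAddCommGroup H'] [InnerProductSpace ℂ H'] [CompleteSpace H']
      (W : H' ≃ₗᵢ[ℂ] H) (K' : H' →L[ℂ] H'), (∀ f, W (K' f) = K (W f)) →
      Repr K' (fun j => W.symm (u j)) (fun j => W.symm (v j))

end Pool.Agent.Y283.NK
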